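import Pool.Agent.Helper27.CB.St

/-! # Project CB (MP_b21509_co), module BRM: Brunn-Minkowski for K and -K -/

set_option autoImplicit false

open MeasureTheory Set
open scoped ENNReal Pointwise

namespace Pool.Agent.Helper90.CB

open Pool.Agent.Helper27.CB

/-- differences of chords -/
theorem brm_sub {K : Set P2} {s τ τ' : ℝ} (h1 : τ ∈ hs K s) (h2 : τ' ∈ hs K s) :
    τ - τ' ∈ hs (K - K) (2 * s) := by
  obtain ⟨t, ht1, ht2⟩ := h1
  obtain ⟨t', ht1', ht2'⟩ := h2
  refine ⟨t - t' - s, ?_, ?_⟩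
  · rw [Set.mem_sub]
    refine ⟨(t, τ), ht1, (t' + s, τ'), ht2', ?_⟩
    ext
    · simp; ring
    · simp
  · rw [Set.mem_sub]
    refine ⟨(t + s, τ), ht2, (t', τ'), ht1', ?_⟩
    ext
    · simp; ring
    · simp

theorem brm_wd {K : Set P2} (hSLK : StSLK) (hK : Bd K) (hD : Bd (K - K)) {s : ℝ} (h0 : 0 ≤ s)
    (h1 : s ≤ ho K) : 2 * wd K s ≤ wd (K - K) (2 * s) := by
  obtain ⟨k1, k2, -, -, -, -, -, -⟩ := hSLK K hK
  obtain ⟨d1, -⟩ := hSLK (K - K) hD
  obtain ⟨hc, hcv⟩ := k1 s
  have hne := k2 s h0 h1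
  have hcon : IsConnected (hs K s) := ⟨hne, hcv.isPreconnected⟩
  have hIcc : hs K s = Icc (sInf (hs K s)) (sSup (hs K s)) := eq_Icc_of_connected_compact hcon hc
  set α := sInf (hs K s) with hα
  set β := sSup (hs K s) with hβ
  have hαβ : α ≤ β := by
    obtain ⟨x, hx⟩ := hne
    rw [hIcc] at hx
    exact hx.1.trans hx.2
  have hαm : α ∈ hs K s := by rw [hIcc]; exact ⟨le_rfl, hαβ⟩
  have hsub : Icc (α - β) (β - α) ⊆ hs (K - K) (2 * s) := by
    intro x hx
    by_cases hx0 : 0 ≤ x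
    · have h3 : α + x ∈ hs K s := by
        rw [hIcc]; exact ⟨by linarith, by linarith [hx.2]⟩
      have h4 := brm_sub h3 hαm
      have h5 : α + x - α = x := by ring
      rwa [h5] at h4
    · have h3 : α - x ∈ hs K s := by
        rw [hIcc]; exact ⟨by linarith, by linarith [hx.1]⟩
      have h4 := brm_sub hαm h3
      have h5 : α - (α - x) = x := by ring
      rwa [h5] at h4
  unfold wd
  rw [hIcc, Real.volume_Icc, ENNReal.toReal_ofReal (by linarith)]
  have hfin : volume (hs (K - K) (2 * s)) ≠ ⊤ := (d1 (2 * s)).1.measure_lt_top.ne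
  have h6 := ENNReal.toReal_mono hfin (measure_mono hsub)
  rw [Real.volume_Icc, ENNReal.toReal_ofReal (by linarith)] at h6
  linarith

theorem brm_anti {L : Set P2} (hSLK : StSLK) (hL : Bd L) : AntitoneOn (wd L) (Ici 0) := by
  obtain ⟨k1, -, -, k4, -⟩ := hSLK L hL
  intro x hx y _ hxy
  unfold wd
  exact ENNReal.toReal_mono (k1 x).1.measure_lt_top.ne (measure_mono (k4 x y hx hxy))

/-- module BRM -/
theorem hBRM (_hSLC : StSLC) (hSLK : StSLK) (hLAY : StLAY) (hRAD : StRAD) : StBRM := by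
  intro K hK
  have hD : Bd (K - K) := (hRAD K hK).1
  obtain ⟨k1, k2, k3, k4, k5, k6, k7, k8⟩ := hSLK K hK
  obtain ⟨d1, d2, d3, d4, d5, d6, d7, d8⟩ := hSLK (K - K) hD
  set c := ho K with hc
  have hho : 2 * c ≤ ho (K - K) := by
    by_contra hcon
    have h1 := d3 (2 * c) (not_le.mp hcon)
    obtain ⟨τ, hτ⟩ := k2 c k7.le le_rfl
    have h2 := brm_sub hτ hτ
    rw [h1] at h2
    exact h2
  have hi1 : ∀ a b : ℝ, 0 ≤ a → 0 ≤ b → IntervalIntegrable (wd (K - K)) volume a b := by
    intro a b ha hb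
    apply AntitoneOn.intervalIntegrable
    apply (brm_anti hSLK hD).mono
    intro x hx
    rcases le_total a b with hab | hab
    · rw [uIcc_of_le hab] at hx
      exact ha.trans hx.1
    · rw [uIcc_of_ge hab] at hx
      exact hb.trans hx.1
  have hi2 : IntervalIntegrable (fun s => 2 * wd K s) volume 0 c := by
    apply IntervalIntegrable.const_mul
    apply AntitoneOn.intervalIntegrable
    apply (brm_anti hSLK hK).mono
    intro x hx
    rw [uIcc_of_le k7.le] at hx
    exact hx.1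
  have hi3 : IntervalIntegrable (fun s => wd (K - K) (2 * s)) volume 0 c := by
    apply AntitoneOn.intervalIntegrable
    intro x hx y hy hxy
    rw [uIcc_of_le k7.le] at hx hy
    exact brm_anti hSLK hD (by simpa using hx.1) (by simpa using hy.1) (by linarith)
  rw [← (hLAY (K - K) hD).2.1, ← (hLAY K hK).2.1, ← hc]
  have e1 : (∫ s in (0 : ℝ)..ho (K - K), wd (K - K) s) =
      (∫ s in (0 : ℝ)..(2 * c), wd (K - K) s) + ∫ s in (2 * c)..ho (K - K), wd (K - K) s :=
    (intervalIntegral.integral_add_adjacent_intervals (hi1 _ _ le_rfl (by linarith))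
      (hi1 _ _ (by linarith) (by linarith))).symm
  have e2 : 0 ≤ ∫ s in (2 * c)..ho (K - K), wd (K - K) s :=
    intervalIntegral.integral_nonneg hho (fun s _ => ENNReal.toReal_nonneg)
  have e3 : (∫ s in (0 : ℝ)..c, wd (K - K) (2 * s)) =
      2⁻¹ * ∫ s in (0 : ℝ)..(2 * c), wd (K - K) s := by
    have h := intervalIntegral.integral_comp_mul_left (a := 0) (b := c) (wd (K - K))
      (c := 2) (by norm_num)
    rw [mul_zero, smul_eq_mul] at h
    exact h
  have e4 : (∫ s in (0 : ℝ)..c, 2 * wd K s) ≤ ∫ s in (0 : ℝ)..c, wd (K - K) (2 * s) :=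
    intervalIntegral.integral_mono_on k7.le hi2 hi3
      (fun s hs => brm_wd hSLK hK hD hs.1 hs.2)
  rw [intervalIntegral.integral_const_mul] at e4
  linarith

end Pool.Agent.Helper90.CB
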