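import Pool.Agent.Helper27.CB.St

/-! # Project CB (MP_b21509_co), module HEX: the covering density and p-hexagons of all directions -/

set_option autoImplicit false

open MeasureTheory Set
open scoped ENNReal Pointwise

namespace Pool.Agent.Helper90.CB

open Pool.Agent.Helper27.CB

/-- rotated coordinates -/
noncomputable def EE (φ : ℝ) (q : P2) : E2 := !₂[(rot φ q).1, (rot φ q).2]

theorem hex_mem (K : Set E2) (φ : ℝ) (q : P2) : q ∈ rb (toP K) φ ↔ EE φ q ∈ K := Iff.rfl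

theorem EE_0 (φ : ℝ) (q : P2) : (EE φ q) 0 = q.1 * Real.cos φ - q.2 * Real.sin φ := by
  simp [EE, rot]

theorem EE_1 (φ : ℝ) (q : P2) : (EE φ q) 1 = q.1 * Real.sin φ + q.2 * Real.cos φ := by
  simp [EE, rot]

/-- the translation vector -/
noncomputable def zz (φ s : ℝ) : E2 := !₂[s * Real.cos φ, s * Real.sin φ]

theorem zz_0 (φ s : ℝ) : (zz φ s) 0 = s * Real.cos φ := by simp [zz]

theorem zz_1 (φ s : ℝ) : (zz φ s) 1 = s * Real.sin φ := by simp [zz]

theorem EE_add (φ s : ℝ) (q : P2) : EE φ (q.1 + s, q.2) = EE φ q + zz φ s := by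
  ext i
  fin_cases i
  · show (EE φ (q.1 + s, q.2)) 0 = (EE φ q + zz φ s) 0
    rw [PiLp.add_apply, EE_0, EE_0, zz_0]
    ring
  · show (EE φ (q.1 + s, q.2)) 1 = (EE φ q + zz φ s) 1
    rw [PiLp.add_apply, EE_1, EE_1, zz_1]
    ring

theorem hgt (φ s : ℝ) (q : P2) :
    (zz φ s) 0 * (EE φ q) 1 - (zz φ s) 1 * (EE φ q) 0 = s * q.2 := by
  rw [zz_0, zz_1, EE_0, EE_1]
  have h := Real.sin_sq_add_cos_sq φ
  linear_combination s * q.2 * h

/-- module HEX -/
theorem hHEX (hDNB : StDNB) (hTIL : StTIL) : StHEX := by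
  intro K hcv hcp hint
  have hVfin : volume K ≠ ⊤ := hcp.measure_lt_top.ne
  have htop : theta K ≠ ⊤ := by
    obtain ⟨x0, hx0⟩ := hint
    rw [mem_interior_iff_mem_nhds, Metric.mem_nhds_iff] at hx0
    obtain ⟨r, hr, hball⟩ := hx0
    set δ : ℝ := r / 2 with hδ
    have hδ0 : 0 < δ := by positivity
    have hin : ∀ v : E2, ‖v‖ ≤ δ → x0 + v ∈ K := by
      intro v hv
      apply hball
      rw [Metric.mem_ball, dist_eq_norm, add_sub_cancel_left]
      linarith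
    have hn1 : ‖(!₂[δ, 0] : E2)‖ ≤ δ := by
      rw [EuclideanSpace.norm_eq, Fin.sum_univ_two]
      simp [Real.sqrt_sq hδ0.le]
    have hn2 : ‖(!₂[0, δ] : E2)‖ ≤ δ := by
      rw [EuclideanSpace.norm_eq, Fin.sum_univ_two]
      simp [Real.sqrt_sq hδ0.le]
    have hn3 : ‖(-(!₂[0, δ]) : E2)‖ ≤ δ := by rw [norm_neg]; exact hn2
    have hx : x0 ∈ K := hball (Metric.mem_ball_self hr)
    have h0 : (!₂[δ, 0] : E2) 0 = δ := by simp
    have h1 : (!₂[δ, 0] : E2) 1 = 0 := by simp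
    have h2 : (!₂[0, δ] : E2) 0 = 0 := by simp
    have h3 : (!₂[0, δ] : E2) 1 = δ := by simp
    have hT := hTIL K hcv !₂[δ, 0] (x0 + !₂[0, δ]) (x0 + -(!₂[0, δ])) x0 x0
      (hin _ hn2) (hin _ hn3) hx (hin _ hn1) hx (hin _ hn1)
      (by
        rw [PiLp.add_apply, PiLp.add_apply, PiLp.neg_apply, PiLp.neg_apply, h0, h1, h2, h3]
        nlinarith)
      le_rfl
      (by
        rw [PiLp.add_apply, PiLp.add_apply, h0, h1, h2, h3]
        nlinarith)
      (by
        rw [PiLp.add_apply, PiLp.add_apply, PiLp.add_apply, PiLp.add_apply, PiLp.neg_apply,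
          PiLp.neg_apply, h0, h1, h2, h3]
        nlinarith)
    have hdet : (!₂[δ, 0] : E2) 0 * ((x0 + !₂[0, δ] - (x0 + -(!₂[0, δ]))) + (x0 - x0) : E2) 1 -
        (!₂[δ, 0] : E2) 1 * ((x0 + !₂[0, δ] - (x0 + -(!₂[0, δ]))) + (x0 - x0) : E2) 0 =
        2 * δ ^ 2 := by
      rw [h0, h1, PiLp.add_apply, PiLp.sub_apply, PiLp.sub_apply, PiLp.add_apply, PiLp.add_apply,
        PiLp.neg_apply, h3]
      ring
    have hfin := hDNB K hcp !₂[δ, 0] ((x0 + !₂[0, δ] - (x0 + -(!₂[0, δ]))) + (x0 - x0))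
      (x0 + !₂[0, δ] + x0 + !₂[δ, 0]) (by rw [hdet]; positivity) hT
    rw [hdet] at hfin
    intro htop
    rw [htop, ENNReal.top_mul (by simpa using hδ0.ne')] at hfin
    have h9 : 2 * volume K < ⊤ := ENNReal.mul_lt_top (by simp) hVfin.lt_top
    exact absurd h9 (not_lt.mpr hfin)
  refine ⟨htop, ?_⟩
  intro F hF hT φ s p0 p3 p4 p5 hs m0 m3 m4 m4' m5 m5' h34 h45 h50
  rw [hex_mem] at m0 m3 m4 m4' m5 m5'
  rw [EE_add] at m4' m5'
  have hF0 : 0 ≤ F := by
    have h1 : 0 ≤ (theta K).toReal * F := le_trans ENNReal.toReal_nonneg hF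
    exact nonneg_of_mul_nonneg_right h1 hT
  by_cases h30 : p3.2 < p0.2
  · have hTl := hTIL K hcv (zz φ s) (EE φ p0) (EE φ p3) (EE φ p4) (EE φ p5) m0 m3 m4 m4' m5 m5'
      (by rw [hgt, hgt]; exact mul_le_mul_of_nonneg_left h34 hs.le)
      (by rw [hgt, hgt]; exact mul_le_mul_of_nonneg_left h45 hs.le)
      (by rw [hgt, hgt]; exact mul_le_mul_of_nonneg_left h50 hs.le)
      (by rw [hgt, hgt]; exact mul_lt_mul_of_pos_left h30 hs)
    have hdet : (zz φ s) 0 * ((EE φ p0 - EE φ p3) + (EE φ p5 - EE φ p4) : E2) 1 -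
        (zz φ s) 1 * ((EE φ p0 - EE φ p3) + (EE φ p5 - EE φ p4) : E2) 0 =
        s * ((p0.2 - p3.2) + (p5.2 - p4.2)) := by
      rw [PiLp.add_apply, PiLp.sub_apply, PiLp.sub_apply, PiLp.add_apply, PiLp.sub_apply,
        PiLp.sub_apply]
      have g0 := hgt φ s p0
      have g3 := hgt φ s p3
      have g4 := hgt φ s p4
      have g5 := hgt φ s p5
      linear_combination g0 - g3 + g5 - g4
    have hpos : 0 < s * ((p0.2 - p3.2) + (p5.2 - p4.2)) := by
      apply mul_pos hs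
      linarith
    have hfin := hDNB K hcp (zz φ s) ((EE φ p0 - EE φ p3) + (EE φ p5 - EE φ p4))
      (EE φ p0 + EE φ p5 + zz φ s) (by rw [hdet]; exact hpos) hTl
    rw [hdet] at hfin
    have h1 := ENNReal.toReal_mono (ENNReal.mul_ne_top (by simp) hVfin) hfin
    rw [ENNReal.toReal_mul, ENNReal.toReal_mul, ENNReal.toReal_ofReal hpos.le] at h1
    have h2 : ((2 : ℝ≥0∞)).toReal = 2 := by simp
    rw [h2] at h1
    have h3 : (theta K).toReal * (s * ((p0.2 - p3.2) + (p5.2 - p4.2))) ≤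
        (theta K).toReal * (2 * F) := by linarith
    exact le_of_mul_le_mul_left h3 hT
  · have h1 : (p0.2 - p3.2) + (p5.2 - p4.2) = 0 := by linarith [not_lt.mp h30]
    rw [h1, mul_zero]
    linarith

end Pool.Agent.Helper90.CB
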